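import Mathlib

-- part Pool.Agent.Lib.MP_b4fb0e_al.Words
section

/-!
The semigroup `W` of words `z^h x z^(m 1) x ... x z^l` in the free product of `Z/7 = <z>` with
the free monoid on `x`, containing at least one `x`, with first exponent in `{1,2,3,5}`,
middle exponents nonzero and last exponent in `{0,1,3}`.
-/

set_option autoImplicit false

namespace Pool.Agent.Lib.MP_b4fb0e_al

/-- allowed first exponents -/
def InJ (j : ZMod 7) : Prop := j = 1 ∨ j = 2 ∨ j = 3 ∨ j = 5

/-- allowed last exponents -/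
def InI (i : ZMod 7) : Prop := i = 0 ∨ i = 1 ∨ i = 3

theorem add_ne_zero_of_InI_InJ {i j : ZMod 7} (hi : InI i) (hj : InJ j) : i + j ≠ 0 := by
  rcases hi with rfl | rfl | rfl <;> rcases hj with rfl | rfl | rfl | rfl <;> decide

/-- words -/
@[ext]
structure W where
  h : ZMod 7
  m : List (ZMod 7)
  l : ZMod 7
  hh : InJ h
  hm : ∀ e ∈ m, e ≠ 0
  hl : InI l

instance : Mul W where
  mul a b := ⟨a.h, a.m ++ (a.l + b.h) :: b.m, b.l, a.hh, by
    intro e he
    rcases List.mem_append.1 he with h | h
    · exact a.hm e h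
    · rcases List.mem_cons.1 h with h | h
      · rw [h]; exact add_ne_zero_of_InI_InJ a.hl b.hh
      · exact b.hm e h, b.hl⟩

@[simp] theorem W.mul_h (a b : W) : (a * b).h = a.h := rfl
@[simp] theorem W.mul_m (a b : W) : (a * b).m = a.m ++ (a.l + b.h) :: b.m := rfl
@[simp] theorem W.mul_l (a b : W) : (a * b).l = b.l := rfl

instance : Semigroup W where
  mul_assoc a b c := by
    ext1 <;> simp

/-- replace the last exponent -/
def W.setL (s : W) (i : ZMod 7) (hi : InI i) : W := ⟨s.h, s.m, i, s.hh, s.hm, hi⟩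

/-- replace the first exponent -/
def W.setH (t : W) (j : ZMod 7) (hj : InJ j) : W := ⟨j, t.m, t.l, hj, t.hm, t.hl⟩

theorem W.setL_mul_setH_eq (s t : W) {i i' j j' : ZMod 7} (hi : InI i) (hi' : InI i')
    (hj : InJ j) (hj' : InJ j') (h : i + j = i' + j') :
    s.setL i hi * t.setH j hj = s.setL i' hi' * t.setH j' hj' := by
  ext1 <;> simp [W.setL, W.setH, h]

theorem W.eq_of_mul_eq {a b s t : W} (ha : a.m.length ≤ s.m.length)
    (hb : b.m.length ≤ t.m.length) {i j : ZMod 7} (hi : InI i) (hj : InJ j)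
    (h : a * b = s.setL i hi * t.setH j hj) :
    a = s.setL a.l a.hl ∧ b = t.setH b.h b.hh ∧ a.l + b.h = i + j := by
  have h1 := congrArg W.h h
  have h2 := congrArg W.m h
  have h3 := congrArg W.l h
  simp only [W.mul_h, W.mul_m, W.mul_l, W.setL, W.setH] at h1 h2 h3
  have hlen := congrArg List.length h2
  simp only [List.length_append, List.length_cons] at hlen
  have hl : a.m.length = s.m.length := by omega
  obtain ⟨h4, h5⟩ := List.append_inj h2 hl
  obtain ⟨h6, h7⟩ := List.cons.inj h5
  refine ⟨?_, ?_, h6⟩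
  · ext1 <;> simp [W.setL, h1, h4]
  · ext1 <;> simp [W.setH, h3, h7]

section Domain

variable {F : Type*} [Field F]

theorem coeff_two (f g : MonoidAlgebra F W) (s t : W)
    (hs : ∀ a ∈ f.coeff.support, a.m.length ≤ s.m.length)
    (ht : ∀ b ∈ g.coeff.support, b.m.length ≤ t.m.length)
    {i i' j j' : ZMod 7} (hi : InI i) (hi' : InI i') (hj : InJ j) (hj' : InJ j')
    (hsum : i + j = i' + j') (hne : i ≠ i')
    (honly : ∀ p q : ZMod 7, InI p → InJ q → p + q = i + j → (p = i ∧ q = j) ∨ (p = i' ∧ q = j')) :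
    (f * g).coeff (s.setL i hi * t.setH j hj) =
      f.coeff (s.setL i hi) * g.coeff (t.setH j hj) +
        f.coeff (s.setL i' hi') * g.coeff (t.setH j' hj') := by
  classical
  have hne' : (s.setL i hi, t.setH j hj) ≠ (s.setL i' hi', t.setH j' hj') := by
    intro h
    exact hne (congrArg W.l (Prod.mk.inj h).1)
  rw [MonoidAlgebra.coeff_mul, Finsupp.sum]
  simp only [Finsupp.sum]
  rw [← Finset.sum_product']
  rw [← Finset.sum_pair (f := fun p : W × W => f.coeff p.1 * g.coeff p.2) hne']
  rw [← Finset.sum_filter]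
  apply Finset.sum_congr_of_eq_on_inter
  · rintro ⟨a, b⟩ hab hnot
    exfalso
    simp only [Finset.mem_filter, Finset.mem_product] at hab
    obtain ⟨⟨ha, hb⟩, h⟩ := hab
    obtain ⟨h1, h2, h3⟩ := W.eq_of_mul_eq (hs a ha) (ht b hb) hi hj h
    apply hnot
    rcases honly a.l b.h a.hl b.hh h3 with ⟨rfl, rfl⟩ | ⟨rfl, rfl⟩
    · rw [← h1, ← h2]; simp
    · rw [← h1, ← h2]; simp
  · rintro ⟨a, b⟩ hab hnot
    simp only [Finset.mem_filter, Finset.mem_product, Finsupp.mem_support_iff] at hnot
    by_contra hc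
    apply hnot
    refine ⟨⟨left_ne_zero_of_mul hc, right_ne_zero_of_mul hc⟩, ?_⟩
    simp only [Finset.mem_insert, Finset.mem_singleton, Prod.mk.injEq] at hab
    rcases hab with ⟨rfl, rfl⟩ | ⟨rfl, rfl⟩
    · rfl
    · exact (W.setL_mul_setH_eq s t hi hi' hj hj' hsum).symm
  · intros; rfl

theorem six_equations (h2 : (2 : F) ≠ 0) (a0 a1 a3 b1 b2 b3 b5 : F)
    (e1 : a0 * b1 + a3 * b5 = 0) (e2 : a0 * b2 + a1 * b1 = 0) (e3 : a0 * b3 + a1 * b2 = 0)
    (e4 : a1 * b3 + a3 * b1 = 0) (e5 : a0 * b5 + a3 * b2 = 0) (e6 : a1 * b5 + a3 * b3 = 0) :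
    (a0 = 0 ∧ a1 = 0 ∧ a3 = 0) ∨ (b1 = 0 ∧ b2 = 0 ∧ b3 = 0 ∧ b5 = 0) := by
  by_cases h0 : a0 = 0
  · subst h0
    simp only [zero_mul, zero_add] at e1 e2 e3 e5
    by_cases h1 : a1 = 0
    · subst h1
      simp only [zero_mul, zero_add] at e4 e6
      by_cases h3 : a3 = 0
      · exact Or.inl ⟨rfl, rfl, h3⟩
      · right
        exact ⟨(mul_eq_zero.1 e4).resolve_left h3, (mul_eq_zero.1 e5).resolve_left h3,
          (mul_eq_zero.1 e6).resolve_left h3, (mul_eq_zero.1 e1).resolve_left h3⟩
    · right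
      have hb1 : b1 = 0 := (mul_eq_zero.1 e2).resolve_left h1
      have hb2 : b2 = 0 := (mul_eq_zero.1 e3).resolve_left h1
      subst hb1
      have hb3 : b3 = 0 := by simpa [h1] using e4
      subst hb3
      have hb5 : b5 = 0 := by simpa [h1] using e6
      exact ⟨rfl, hb2, rfl, hb5⟩
  · right
    have hb1 : b1 = 0 := by
      by_contra hb
      -- a0^2 * b3 = a1^2 * b1, a0^2 * b5 = a1 * a3 * b1
      have k3 : a0 ^ 2 * b3 = a1 ^ 2 * b1 := by linear_combination a0 * e3 - a1 * e2
      have k5 : a0 ^ 2 * b5 = a1 * a3 * b1 := by linear_combination a0 * e5 - a3 * e2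
      have k6 : 2 * (a1 ^ 2 * a3) * b1 = 0 := by
        linear_combination a0 ^ 2 * e6 - a1 * k5 - a3 * k3
      have k1 : (a0 ^ 3 + a1 * a3 ^ 2) * b1 = 0 := by
        linear_combination a0 ^ 2 * e1 - a3 * k5
      have k1' : a0 ^ 3 + a1 * a3 ^ 2 = 0 := (mul_eq_zero.1 k1).resolve_right hb
      have k6' : a1 ^ 2 * a3 = 0 :=
        (mul_eq_zero.1 ((mul_eq_zero.1 k6).resolve_right hb)).resolve_left h2
      have k7 : a1 * a3 ^ 2 = 0 := by
        rcases mul_eq_zero.1 k6' with h | h
        · rw [pow_eq_zero_iff (by norm_num)] at h; simp [h]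
        · simp [h]
      rw [k7, add_zero] at k1'
      exact h0 (pow_eq_zero_iff (by norm_num) |>.1 k1')
    subst hb1
    have hb2 : b2 = 0 := by simpa [h0] using e2
    subst hb2
    have hb3 : b3 = 0 := by simpa [h0] using e3
    have hb5 : b5 = 0 := by simpa [h0] using e5
    exact ⟨rfl, rfl, hb3, hb5⟩

theorem i0 : InI 0 := Or.inl rfl
theorem i1 : InI 1 := Or.inr (Or.inl rfl)
theorem i3 : InI 3 := Or.inr (Or.inr rfl)
theorem j1 : InJ 1 := Or.inl rfl
theorem j2 : InJ 2 := Or.inr (Or.inl rfl)
theorem j3 : InJ 3 := Or.inr (Or.inr (Or.inl rfl))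
theorem j5 : InJ 5 := Or.inr (Or.inr (Or.inr rfl))

instance (i : ZMod 7) : Decidable (InI i) := by unfold InI; infer_instance
instance (j : ZMod 7) : Decidable (InJ j) := by unfold InJ; infer_instance

/-- The semigroup algebra of `W` has no zero divisors in characteristic different from 2. -/
theorem noZeroDivisors_W (h2 : (2 : F) ≠ 0) : NoZeroDivisors (MonoidAlgebra F W) := by
  refine ⟨fun {f g} hfg => ?_⟩
  by_contra hne
  push Not at hne
  obtain ⟨hf, hg⟩ := hne
  have hf' : f.coeff.support.Nonempty := by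
    rw [Finsupp.support_nonempty_iff]; simpa using hf
  have hg' : g.coeff.support.Nonempty := by
    rw [Finsupp.support_nonempty_iff]; simpa using hg
  obtain ⟨s, hs, hsmax⟩ := Finset.exists_max_image _ (fun a : W => a.m.length) hf'
  obtain ⟨t, ht, htmax⟩ := Finset.exists_max_image _ (fun a : W => a.m.length) hg'
  have e1 := coeff_two f g s t hsmax htmax i0 i3 j1 j5 (by decide) (by decide) (by decide)
  have e2 := coeff_two f g s t hsmax htmax i0 i1 j2 j1 (by decide) (by decide) (by decide)
  have e3 := coeff_two f g s t hsmax htmax i0 i1 j3 j2 (by decide) (by decide) (by decide)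
  have e4 := coeff_two f g s t hsmax htmax i1 i3 j3 j1 (by decide) (by decide) (by decide)
  have e5 := coeff_two f g s t hsmax htmax i0 i3 j5 j2 (by decide) (by decide) (by decide)
  have e6 := coeff_two f g s t hsmax htmax i1 i3 j5 j3 (by decide) (by decide) (by decide)
  rw [hfg] at e1 e2 e3 e4 e5 e6
  simp only [MonoidAlgebra.coeff_zero, Finsupp.coe_zero, Pi.zero_apply] at e1 e2 e3 e4 e5 e6
  rw [Finsupp.mem_support_iff] at hs ht
  rcases six_equations h2 _ _ _ _ _ _ _ e1.symm e2.symm e3.symm e4.symm e5.symm e6.symm with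
    ⟨k0, k1, k3⟩ | ⟨k1, k2, k3, k5⟩
  · apply hs
    obtain ⟨h, m, l, hh, hm, hl⟩ := s
    rcases hl with rfl | rfl | rfl
    · exact k0
    · exact k1
    · exact k3
  · apply ht
    obtain ⟨h, m, l, hh, hm, hl⟩ := t
    rcases hh with rfl | rfl | rfl | rfl
    · exact k1
    · exact k2
    · exact k3
    · exact k5

end Domain

instance fact7 : Fact (Nat.Prime 7) := ⟨by norm_num⟩

/-- the letter `z x` -/
def w0 : W := ⟨1, [], 0, j1, by simp, i0⟩

/-- In characteristic 7 the semigroup algebra of `W` embeds in no division ring. -/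
theorem not_embeds (D : Type*) [DivisionRing D] (f : MonoidAlgebra (ZMod 7) W →ₙ+* D) :
    ¬ Function.Injective f := by
  intro hf
  let φ : W → D := fun w => f (MonoidAlgebra.single w 1)
  have hφ0 : ∀ w, φ w ≠ 0 := by
    intro w h
    have : MonoidAlgebra.single w (1 : ZMod 7) = 0 := hf (by rw [map_zero]; exact h)
    have := congrArg (fun x => x.coeff w) this
    simp at this
  have hφmul : ∀ a b, φ (a * b) = φ a * φ b := by
    intro a b
    simp only [φ]
    rw [← map_mul, MonoidAlgebra.single_mul_single, one_mul]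
  have h7 : (7 : D) = 0 := by
    have h1 : (7 : ℕ) • MonoidAlgebra.single w0 (1 : ZMod 7) = 0 := by
      rw [MonoidAlgebra.smul_single]
      have : (7 : ℕ) • (1 : ZMod 7) = 0 := by decide
      rw [this]; simp
    have h2 : (7 : ℕ) • φ w0 = 0 := by
      simp only [φ]; rw [← map_nsmul, h1, map_zero]
    rw [nsmul_eq_mul] at h2
    exact_mod_cast (mul_eq_zero.1 h2).resolve_right (hφ0 w0)
  have : CharP D 7 := (CharP.charP_iff_prime_eq_zero fact7.out).2 (by exact_mod_cast h7)
  have rel : ∀ {i i' j j' : ZMod 7} (hi : InI i) (hi' : InI i') (hj : InJ j) (hj' : InJ j'),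
      i + j = i' + j' →
      φ (w0.setL i hi) * φ (w0.setH j hj) = φ (w0.setL i' hi') * φ (w0.setH j' hj') := by
    intro i i' j j' hi hi' hj hj' h
    rw [← hφmul, ← hφmul, W.setL_mul_setH_eq w0 w0 hi hi' hj hj' h]
  have e1 := rel i0 i3 j1 j5 (by decide)
  have e2 := rel i0 i1 j2 j1 (by decide)
  have e3 := rel i0 i1 j3 j2 (by decide)
  have e4 := rel i1 i3 j3 j1 (by decide)
  have e5 := rel i0 i3 j5 j2 (by decide)
  have n0 := hφ0 (w0.setL 0 i0)
  have m1 := hφ0 (w0.setH 1 j1)
  generalize hA0 : φ (w0.setL 0 i0) = A0 at *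
  generalize hA1 : φ (w0.setL 1 i1) = A1 at *
  generalize φ (w0.setL 3 i3) = A3 at *
  generalize φ (w0.setH 1 j1) = B1 at *
  generalize φ (w0.setH 2 j2) = B2 at *
  generalize φ (w0.setH 3 j3) = B3 at *
  generalize φ (w0.setH 5 j5) = B5 at *
  obtain ⟨z, hz⟩ : ∃ z : D, A1 = A0 * z := ⟨A0⁻¹ * A1, by rw [mul_inv_cancel_left₀ n0]⟩
  subst hz
  have hB2 : B2 = z * B1 := by
    apply mul_left_cancel₀ n0; rw [e2, mul_assoc]
  subst hB2
  have hB3 : B3 = z * (z * B1) := by
    apply mul_left_cancel₀ n0; rw [e3, mul_assoc]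
  subst hB3
  have hA3 : A3 = A0 * z ^ 3 := by
    apply mul_right_cancel₀ m1; rw [← e4]; noncomm_ring
  subst hA3
  have hB5 : B5 = z ^ 4 * B1 := by
    apply mul_left_cancel₀ n0; rw [e5]; noncomm_ring
  subst hB5
  have hz7 : z ^ 7 = 1 := by
    have : A0 * (z ^ 7 * B1) = A0 * (1 * B1) := by rw [one_mul, e1]; noncomm_ring
    exact mul_right_cancel₀ m1 (mul_left_cancel₀ n0 this)
  have hz1 : (z - 1) ^ 7 = 0 := by
    rw [sub_pow_char_of_commute 7 (Commute.one_right z), hz7]; simp
  have hz : z = 1 := sub_eq_zero.1 (pow_eq_zero_iff (by norm_num) |>.1 hz1)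
  subst hz
  rw [mul_one, ← hA0] at hA1
  have h1 : MonoidAlgebra.single (w0.setL 1 i1) (1 : ZMod 7) =
      MonoidAlgebra.single (w0.setL 0 i0) 1 := hf hA1
  rw [MonoidAlgebra.single_left_inj one_ne_zero] at h1
  have := congrArg W.l h1
  simp only [W.setL] at this
  exact absurd this (by decide)

end Pool.Agent.Lib.MP_b4fb0e_al
end

-- part Pool.Agent.Lib.MP_b4fb0e_al.Skew
section

/-!
The skew monoid algebra `R = K * M`, where `K` is the field with `3^6` elements and
`M = {u^i t^j}` is the monoid with `t u = u^7 t`; `u` acts on `K` by Frobenius, `t` trivially.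
`R` is a left Ore domain, hence embeds in a division ring.
-/

set_option autoImplicit false

namespace Pool.Agent.Lib.MP_b4fb0e_al

open SkewMonoidAlgebra

instance fact3 : Fact (Nat.Prime 3) := ⟨by norm_num⟩

/-- the field with 729 elements -/
abbrev K : Type := GaloisField 3 6

/-- the monoid of the `u^i t^j` -/
@[ext]
structure M where
  i : ℕ
  j : ℕ
  deriving DecidableEq

instance : Mul M := ⟨fun a b => ⟨a.i + 7 ^ a.j * b.i, a.j + b.j⟩⟩
instance : One M := ⟨⟨0, 0⟩⟩

@[simp] theorem M.mul_i (a b : M) : (a * b).i = a.i + 7 ^ a.j * b.i := rfl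
@[simp] theorem M.mul_j (a b : M) : (a * b).j = a.j + b.j := rfl
@[simp] theorem M.one_i : (1 : M).i = 0 := rfl
@[simp] theorem M.one_j : (1 : M).j = 0 := rfl

instance : Monoid M where
  mul_assoc a b c := by
    ext1 <;> simp <;> ring
  one_mul a := by ext1 <;> simp
  mul_one a := by ext1 <;> simp

/-- Frobenius -/
noncomputable def σ : K →+* K := frobenius K 3

theorem σ_pow_apply (n : ℕ) (c : K) : (σ ^ n) c = c ^ 3 ^ n := by
  induction n with
  | zero => simp
  | succ n ih => rw [pow_succ', RingHom.coe_mul, Function.comp_apply, ih, σ, frobenius_def,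
      ← pow_mul, ← pow_succ]

theorem σ_pow_six : σ ^ 6 = 1 := by
  ext c
  have : Fintype K := Fintype.ofFinite K
  have hc : Fintype.card K = 3 ^ 6 := by
    rw [← Nat.card_eq_fintype_card]; exact GaloisField.card 3 6 (by norm_num)
  rw [σ_pow_apply, ← hc, FiniteField.pow_card]; rfl

theorem σ_pow_seven_pow (j k : ℕ) : σ ^ (7 ^ j * k) = σ ^ k := by
  have : σ ^ (7 ^ j) = σ := by
    induction j with
    | zero => simp
    | succ j ih =>
      rw [pow_succ, pow_mul, ih]
      calc σ ^ 7 = σ ^ 6 * σ := by rw [← pow_succ]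
        _ = σ := by rw [σ_pow_six, one_mul]
  rw [pow_mul, this]

/-- the action of `M` on `K` -/
noncomputable def ρ : M →* (K →+* K) where
  toFun a := σ ^ a.i
  map_one' := by simp
  map_mul' a b := by simp [pow_add, σ_pow_seven_pow]

noncomputable instance : MulSemiringAction M K := MulSemiringAction.compHom K ρ

theorem M.smul_def (a : M) (c : K) : a • c = (σ ^ a.i) c := rfl

instance : SMulCommClass M (ZMod 3) K where
  smul_comm a c y := by
    rw [M.smul_def, M.smul_def]
    exact ZMod.map_smul (σ ^ a.i) c y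

/-- the skew monoid algebra -/
abbrev R : Type := SkewMonoidAlgebra K M

theorem M.unique_mul {a b a0 b0 : M} (ha : toLex (a.j, a.i) ≤ toLex (a0.j, a0.i))
    (hb : toLex (b.j, b.i) ≤ toLex (b0.j, b0.i)) (h : a * b = a0 * b0) : a = a0 ∧ b = b0 := by
  have h1 := congrArg M.i h
  have h2 := congrArg M.j h
  simp only [M.mul_i, M.mul_j] at h1 h2
  rw [Prod.Lex.toLex_le_toLex] at ha hb
  simp only at ha hb
  have hj : a.j = a0.j := by omega
  have hj' : b.j = b0.j := by omega
  have hi : a.i ≤ a0.i := by omega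
  have hi' : b.i ≤ b0.i := by omega
  rw [hj] at h1
  have hpos : 0 < 7 ^ a0.j := by positivity
  have h3 : 7 ^ a0.j * b.i ≤ 7 ^ a0.j * b0.i := Nat.mul_le_mul_left _ hi'
  have h4 : a.i = a0.i := by omega
  have h5 : 7 ^ a0.j * b.i = 7 ^ a0.j * b0.i := by omega
  exact ⟨M.ext h4 hj, M.ext (Nat.eq_of_mul_eq_mul_left hpos h5) hj'⟩

instance : NoZeroDivisors R := by
  refine ⟨fun {f g} hfg => ?_⟩
  by_contra hne
  push Not at hne
  obtain ⟨hf, hg⟩ := hne
  have hf' : f.support.Nonempty := by
    rw [Finset.nonempty_iff_ne_empty]; simpa using hf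
  have hg' : g.support.Nonempty := by
    rw [Finset.nonempty_iff_ne_empty]; simpa using hg
  obtain ⟨s, hs, hsmax⟩ := Finset.exists_max_image _ (fun a : M => toLex (a.j, a.i)) hf'
  obtain ⟨t, ht, htmax⟩ := Finset.exists_max_image _ (fun a : M => toLex (a.j, a.i)) hg'
  have key : (f * g).coeff (s * t) = f.coeff s * s • g.coeff t := by
    rw [coeff_mul, sum_def']
    rw [Finset.sum_eq_single s]
    · rw [sum_def', Finset.sum_eq_single t]
      · simp
      · intro b hb hbt
        rw [if_neg]
        intro h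
        exact hbt (M.unique_mul le_rfl (htmax b hb) h).2
      · intro h; exact absurd ht h
    · intro a ha has
      rw [sum_def']
      apply Finset.sum_eq_zero
      intro b hb
      rw [if_neg]
      intro h
      exact has (M.unique_mul (hsmax a ha) (htmax b hb) h).1
    · intro h; exact absurd hs h
  rw [hfg] at key
  rw [mem_support_iff] at hs ht
  have h2 : s • g.coeff t ≠ 0 := by
    rw [M.smul_def]
    exact (map_ne_zero (σ ^ s.i)).2 ht
  exact mul_ne_zero hs h2 key.symm

/-- a box in `M` -/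
def box (N n : ℕ) : Finset M :=
  (Finset.range N ×ˢ Finset.range n).map ⟨fun p => ⟨p.1, p.2⟩, by
    rintro ⟨a, b⟩ ⟨c, d⟩ h
    simp only [M.mk.injEq] at h
    exact Prod.ext h.1 h.2⟩

theorem mem_box {N n : ℕ} {a : M} : a ∈ box N n ↔ a.i < N ∧ a.j < n := by
  obtain ⟨i, j⟩ := a
  simp only [box, Finset.mem_map, Finset.mem_product, Finset.mem_range]
  constructor
  · rintro ⟨⟨a, b⟩, h, h'⟩
    obtain ⟨rfl, rfl⟩ := M.mk.inj h'
    exact h
  · intro h
    exact ⟨(i, j), h, rfl⟩

theorem card_box (N n : ℕ) : (box N n).card = N * n := by simp [box]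

/-- the linear combination of the elements of a finite subset of `M` -/
noncomputable def comb (A : Finset M) : (A → K) →ₗ[K] R where
  toFun p := ∑ a : A, single (a : M) (p a)
  map_add' p q := by simp only [Pi.add_apply, single_add, Finset.sum_add_distrib]
  map_smul' c p := by
    simp only [Finset.smul_sum, Pi.smul_apply, RingHom.id_apply, smul_single]

theorem comb_apply (A : Finset M) (p : A → K) : comb A p = ∑ a : A, single (a : M) (p a) := rfl

theorem comb_coeff (A : Finset M) (p : A → K) (a : A) : (comb A p).coeff a = p a := by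
  classical
  rw [comb_apply]
  rw [← coeffAddEquiv_apply, _root_.map_sum, Finsupp.finsetSum_apply, Finset.sum_eq_single a]
  · simp
  · intro b _ hb
    simp only [coeffAddEquiv_apply, coeff_single]
    exact Finsupp.single_eq_of_ne (fun h => hb (Subtype.ext h.symm))
  · simp

theorem comb_support (A : Finset M) (p : A → K) : (comb A p).support ⊆ A := by
  classical
  intro m hm
  by_contra hA
  rw [mem_support_iff] at hm
  apply hm
  rw [comb_apply]
  rw [← coeffAddEquiv_apply, _root_.map_sum, Finsupp.finsetSum_apply]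
  apply Finset.sum_eq_zero
  intro b _
  simp only [coeffAddEquiv_apply, coeff_single]
  exact Finsupp.single_eq_of_ne (fun h => hA (h ▸ b.2))

open Pointwise in
theorem support_mul_box {x y : R} {N n L : ℕ} (hx : x.support ⊆ box N n)
    (hy : y.support ⊆ box L L) : (x * y).support ⊆ box (N + 7 ^ n * L) (n + L) := by
  intro m hm
  obtain ⟨a, ha, b, hb, rfl⟩ := Finset.mem_mul.1 (support_mul x y hm)
  have ha' := mem_box.1 (hx ha)
  have hb' := mem_box.1 (hy hb)
  rw [mem_box]
  simp only [M.mul_i, M.mul_j]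
  have h1 : 7 ^ a.j ≤ 7 ^ n := Nat.pow_le_pow_right (by norm_num) ha'.2.le
  have h2 : 7 ^ a.j * b.i ≤ 7 ^ n * L := Nat.mul_le_mul h1 hb'.1.le
  omega

theorem exists_box (s : Finset M) : ∃ L, 0 < L ∧ s ⊆ box L L := by
  refine ⟨s.sup (fun a => a.i + a.j) + 1, by omega, fun a ha => ?_⟩
  have := Finset.le_sup (f := fun a : M => a.i + a.j) ha
  rw [mem_box]
  omega

theorem ore (r s : R) : ∃ p q : R, (p ≠ 0 ∨ q ≠ 0) ∧ p * r = q * s := by
  classical
  obtain ⟨L, hL, hsub⟩ := exists_box (r.support ∪ s.support)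
  have hr : r.support ⊆ box L L := Finset.subset_union_left.trans hsub
  have hs : s.support ⊆ box L L := Finset.subset_union_right.trans hsub
  set n := 3 * L with hn
  set N := 3 * (7 ^ n * L) with hN
  set A := box N n
  set C := box (N + 7 ^ n * L) (n + L)
  let T : ((A → K) × (A → K)) →ₗ[K] (C → K) :=
    { toFun := fun pq c => (comb A pq.1 * r - comb A pq.2 * s).coeff c
      map_add' := by
        intro x y
        ext c
        simp only [Prod.fst_add, Prod.snd_add, map_add, add_mul, Pi.add_apply, coeff_sub,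
          coeff_add, Finsupp.sub_apply, Finsupp.add_apply]
        ring
      map_smul' := by
        intro a x
        ext c
        simp only [Prod.smul_fst, Prod.smul_snd, map_smul, smul_mul_assoc, ← smul_sub, coeff_smul,
          Finsupp.smul_apply, RingHom.id_apply, Pi.smul_apply] }
  have hdim : Module.finrank K (C → K) < Module.finrank K ((A → K) × (A → K)) := by
    simp only [Module.finrank_prod, Module.finrank_fintype_fun_eq_card, Fintype.card_coe]
    simp only [A, C, card_box]
    have hX : 0 < 7 ^ n * L := by positivity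
    rw [hN]
    generalize 7 ^ n * L = X at *
    rw [hn]
    nlinarith
  obtain ⟨⟨p, q⟩, hker, hne⟩ := (Submodule.ne_bot_iff _).1 (T.ker_ne_bot_of_finrank_lt hdim)
  refine ⟨comb A p, comb A q, ?_, ?_⟩
  · by_contra h
    push Not at h
    apply hne
    ext a
    · have := comb_coeff A p a
      rw [h.1] at this
      simpa using this.symm
    · have := comb_coeff A q a
      rw [h.2] at this
      simpa using this.symm
  · rw [← sub_eq_zero]
    ext c
    by_cases hc : c ∈ C
    · exact congrFun (LinearMap.mem_ker.1 hker) ⟨c, hc⟩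
    · have h1 : c ∉ (comb A p * r).support :=
        fun h => hc (support_mul_box (comb_support A p) hr h)
      have h2 : c ∉ (comb A q * s).support :=
        fun h => hc (support_mul_box (comb_support A q) hs h)
      rw [notMem_support_iff] at h1 h2
      simp [h1, h2]

open nonZeroDivisors in
theorem nonempty_oreSet : Nonempty (OreLocalization.OreSet R⁰) := by
  rw [OreLocalization.nonempty_oreSet_iff_of_noZeroDivisors]
  intro r s
  obtain ⟨p, q, hpq, h⟩ := ore r s
  have hs : (s : R) ≠ 0 := nonZeroDivisors.ne_zero s.2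
  have hp : p ≠ 0 := by
    rcases hpq with hp | hq
    · exact hp
    · rintro rfl
      rw [zero_mul] at h
      exact mul_ne_zero hq hs h.symm
  exact ⟨q, ⟨p, mem_nonZeroDivisors_of_ne_zero hp⟩, h⟩

open nonZeroDivisors in
/-- `R` embeds in a division ring. -/
theorem R_embeds : ∃ (D : Type) (_ : DivisionRing D) (f : R →+* D), Function.Injective f := by
  obtain ⟨inst⟩ := nonempty_oreSet
  exact ⟨OreLocalization R⁰ R, inferInstance, OreLocalization.numeratorRingHom,
    OreLocalization.numeratorHom_inj (fun _ hx => hx.1)⟩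

end Pool.Agent.Lib.MP_b4fb0e_al
end

-- part Pool.Agent.Lib.MP_b4fb0e_al.Embed
section

/-!
The semigroup algebra of `W` over the field with three elements embeds in `R`.
-/

set_option autoImplicit false

namespace Pool.Agent.Lib.MP_b4fb0e_al

open SkewMonoidAlgebra

theorem exists_psi : ∃ ψ : AddChar (ZMod 7) K, ψ.IsPrimitive := by
  have hc : Nat.card K = 3 ^ 6 := GaloisField.card 3 6 (by norm_num)
  have hu : 7 ∣ Nat.card Kˣ := by rw [Nat.card_units, hc]; norm_num
  obtain ⟨ζ, hζ⟩ := exists_prime_orderOf_dvd_card' 7 hu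
  have h1 : IsPrimitiveRoot ζ 7 := hζ ▸ IsPrimitiveRoot.orderOf ζ
  have h2 : IsPrimitiveRoot (ζ : K) 7 := IsPrimitiveRoot.coe_units_iff.2 h1
  exact ⟨_, AddChar.zmodChar_primitive_of_primitive_root 7 h2⟩

section

variable (ψ : AddChar (ZMod 7) K)

theorem σ_psi (n : ℕ) (e : ZMod 7) : (σ ^ n) (ψ e) = ψ (3 ^ n * e) := by
  rw [σ_pow_apply, ← AddChar.map_nsmul_eq_pow, nsmul_eq_mul]
  push_cast
  rfl

variable {ψ}

theorem fourier (hψ : ψ.IsPrimitive) (y : ZMod 7 → K)
    (h : ∀ g : ZMod 7, g ≠ 0 → ∑ e, ψ (g * e) * y e = 0) (e0 : ZMod 7) :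
    7 * y e0 = ∑ e, y e := by
  have h1 : ∑ g : ZMod 7, ψ (g * (-e0)) * ∑ e, ψ (g * e) * y e = ∑ e, y e := by
    rw [Finset.sum_eq_single 0]
    · simp
    · intro g _ hg; rw [h g hg, mul_zero]
    · simp
  rw [← h1]
  simp only [Finset.mul_sum]
  rw [Finset.sum_comm]
  have h2 : ∀ e : ZMod 7, ∑ g : ZMod 7, ψ (g * (-e0)) * (ψ (g * e) * y e) =
      (if e = e0 then 7 else 0) * y e := by
    intro e
    have h3 := AddChar.sum_mulShift (e - e0) hψ
    simp only [← mul_assoc, ← AddChar.map_add_eq_mul]
    rw [← Finset.sum_mul]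
    congr 1
    have h4 : ∀ g : ZMod 7, g * -e0 + g * e = g * (e - e0) := fun g => by ring
    simp only [h4, h3, sub_eq_zero, ZMod.card]
    split_ifs <;> simp
  simp only [h2]
  simp

theorem seven_ne_zero : (7 : K) ≠ 0 := by
  have h3 : (3 : K) = 0 := by exact_mod_cast CharP.cast_eq_zero K 3
  intro h
  have : (1 : K) = 0 := by linear_combination h - 2 * h3
  exact one_ne_zero this

theorem fourier' (hψ : ψ.IsPrimitive) (y : ZMod 7 → K)
    (h : ∀ i < 6, ∑ e, ψ e * (σ ^ i) (y e) = 0) (e e' : ZMod 7) : y e = y e' := by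
  have key : ∀ g : ZMod 7, g ≠ 0 → ∑ e, ψ (g * e) * y e = 0 := by
    intro g hg
    obtain ⟨i, hi, rfl⟩ : ∃ i < 6, g = 3 ^ (6 - i) := by
      revert g; decide
    have := congrArg (σ ^ (6 - i)) (h i hi)
    rw [_root_.map_sum, map_zero] at this
    rw [← this]
    refine Finset.sum_congr rfl fun e _ => ?_
    rw [map_mul (σ ^ (6 - i)), σ_psi]
    congr 1
    have h6 : σ ^ (6 - i) * σ ^ i = 1 := by
      rw [← pow_add, Nat.sub_add_cancel hi.le, σ_pow_six]
    have := congrArg (fun f : K →+* K => f (y e)) h6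
    simpa using this.symm
  apply mul_left_cancel₀ seven_ne_zero
  rw [fourier hψ y key, fourier hψ y key]

end

/-- the image of the letter `x` -/
noncomputable def xx : R := ∑ i ∈ Finset.range 6, single (⟨i, 1⟩ : M) (1 : K)

theorem coeff_finsetSum {ι : Type*} (s : Finset ι) (f : ι → R) (m : M) :
    (∑ i ∈ s, f i).coeff m = ∑ i ∈ s, (f i).coeff m := by
  rw [← coeffAddEquiv_apply, _root_.map_sum, Finsupp.finsetSum_apply]
  rfl

theorem xx_mul_coeff (r : R) {i : ℕ} (hi : i < 6) (m : M) :
    (xx * r).coeff ((⟨i, 1⟩ : M) * m) = (σ ^ i) (r.coeff m) := by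
  rw [xx, Finset.sum_mul, coeff_finsetSum, Finset.sum_eq_single i]
  · rw [coeff_single_mul_aux (z := m), one_mul, M.smul_def]
    intro a
    constructor
    · intro h
      have h1 := congrArg M.i h
      have h2 := congrArg M.j h
      simp only [M.mul_i, M.mul_j] at h1 h2
      exact M.ext (by omega) (by omega)
    · rintro rfl; rfl
  · intro b hb hbi
    apply coeff_single_mul_of_not_exists_mul
    rintro ⟨d, h⟩
    have h1 := congrArg M.i h
    simp only [M.mul_i] at h1
    rw [Finset.mem_range] at hb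
    omega
  · intro h; exact absurd (Finset.mem_range.2 hi) h

theorem xx_mul_coeff_one (r : R) : (xx * r).coeff 1 = 0 := by
  rw [xx, Finset.sum_mul, coeff_finsetSum]
  apply Finset.sum_eq_zero
  intro b _
  apply coeff_single_mul_of_not_exists_mul
  rintro ⟨d, h⟩
  have h1 := congrArg M.j h
  simp only [M.mul_j, M.one_j] at h1
  omega

section

variable {ψ : AddChar (ZMod 7) K}

theorem freeness (hψ : ψ.IsPrimitive) (c : K) (r : ZMod 7 → R)
    (h : single 1 c + ∑ e, single 1 (ψ e) * (xx * r e) = 0) :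
    c = 0 ∧ ∀ e e', r e = r e' := by
  constructor
  · have := congrArg (fun x : R => x.coeff 1) h
    simp only [coeff_add, Finsupp.add_apply, coeff_finsetSum, coeff_single_one_mul,
      xx_mul_coeff_one] at this
    simpa using this
  · intro e e'
    ext m
    refine fourier' hψ (fun e => (r e).coeff m) (fun i hi => ?_) e e'
    have := congrArg (fun x : R => x.coeff ((⟨i, 1⟩ : M) * m)) h
    simp only [coeff_add, Finsupp.add_apply, coeff_finsetSum, coeff_single_one_mul,
      xx_mul_coeff _ hi] at this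
    have h0 : (single (1 : M) c).coeff ((⟨i, 1⟩ : M) * m) = 0 := by
      rw [coeff_single]
      apply Finsupp.single_eq_of_ne
      intro h
      have h1 := congrArg M.j h
      simp only [M.mul_j, M.one_j] at h1
      omega
    rw [h0, zero_add] at this
    simpa using this

variable (ψ)

/-- evaluation of the word `z^(a 1) x z^(a 2) x ... x z^e` -/
noncomputable def ev : List (ZMod 7) → ZMod 7 → R
  | [], e => single 1 (ψ e)
  | a :: l, e => single 1 (ψ a) * (xx * ev l e)

theorem ev_add (a b : ZMod 7) (l : List (ZMod 7)) (e : ZMod 7) :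
    ev ψ ((a + b) :: l) e = single 1 (ψ a) * ev ψ (b :: l) e := by
  simp only [ev]
  rw [← mul_assoc (single 1 (ψ a)), single_mul_single, one_mul, one_smul,
    AddChar.map_add_eq_mul]

theorem ev_append (L : List (ZMod 7)) (a b : ZMod 7) (l : List (ZMod 7)) (e : ZMod 7) :
    ev ψ (L ++ (a + b) :: l) e = ev ψ L a * ev ψ (b :: l) e := by
  induction L with
  | nil => rw [List.nil_append, ev_add]; rfl
  | cons c L ih =>
    rw [List.cons_append, ev, ih]
    simp only [ev, mul_assoc]

/-- the multiplicative map from `W` to `R` -/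
noncomputable def evW : W →ₙ* R where
  toFun w := ev ψ (w.h :: w.m) w.l
  map_mul' a b := by
    simp only [W.mul_h, W.mul_m, W.mul_l]
    rw [← List.cons_append, ev_append]

/-- linear extension of `ev` -/
noncomputable def E : ((List (ZMod 7) × ZMod 7) →₀ ZMod 3) →ₗ[ZMod 3] R :=
  Finsupp.linearCombination (ZMod 3) (fun w => ev ψ w.1 w.2)

/-- prepend a letter -/
def consW (a : ZMod 7) (w : List (ZMod 7) × ZMod 7) : List (ZMod 7) × ZMod 7 := (a :: w.1, w.2)

theorem consW_injective (a : ZMod 7) : Function.Injective (consW a) := by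
  rintro ⟨l, e⟩ ⟨l', e'⟩ h
  simp only [consW, Prod.mk.injEq, List.cons.injEq, true_and] at h
  exact Prod.ext h.1 h.2

/-- the part of a combination of words starting with a given letter -/
noncomputable def tl (a : ZMod 7) :
    ((List (ZMod 7) × ZMod 7) →₀ ZMod 3) →+ ((List (ZMod 7) × ZMod 7) →₀ ZMod 3) :=
  Finsupp.comapDomain.addMonoidHom (consW_injective a)

theorem tl_apply (a : ZMod 7) (c : (List (ZMod 7) × ZMod 7) →₀ ZMod 3)
    (w : List (ZMod 7) × ZMod 7) : tl a c w = c (consW a w) := rfl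

theorem E_decomp (c : (List (ZMod 7) × ZMod 7) →₀ ZMod 3) :
    E ψ c = single 1 (∑ e, c ([], e) • ψ e) + ∑ a, single 1 (ψ a) * (xx * E ψ (tl a c)) := by
  classical
  induction c using Finsupp.induction_linear with
  | zero => simp
  | add f g hf hg =>
    simp only [map_add, Finsupp.add_apply, add_smul, Finset.sum_add_distrib, single_add, mul_add]
    rw [hf, hg]
    abel
  | single w k =>
    obtain ⟨l, e⟩ := w
    cases l with
    | nil =>
      have h1 : ∀ a, tl a (Finsupp.single (([] : List (ZMod 7)), e) k) = 0 := by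
        intro a
        ext w
        rw [tl_apply]
        apply Finsupp.single_eq_of_ne
        simp [consW]
      simp only [h1, map_zero, mul_zero, Finset.sum_const_zero, add_zero]
      rw [Finset.sum_eq_single e]
      · simp only [E, ev, Finsupp.linearCombination_single, smul_single, Finsupp.single_eq_same]
      · intro b _ hb
        rw [Finsupp.single_eq_of_ne (by simpa using hb), zero_smul]
      · simp
    | cons b l =>
      have h1 : ∀ e' : ZMod 7, (Finsupp.single (b :: l, e) k) (([] : List (ZMod 7)), e') = 0 := by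
        intro e'
        apply Finsupp.single_eq_of_ne
        simp
      simp only [h1, zero_smul, Finset.sum_const_zero, single_zero, zero_add]
      rw [Finset.sum_eq_single b]
      · have h2 : tl b (Finsupp.single (b :: l, e) k) = Finsupp.single (l, e) k := by
          ext w
          rw [tl_apply]
          exact Finsupp.single_apply_left (consW_injective b) (l, e) w k
        rw [h2]
        simp only [E, Finsupp.linearCombination_single, ev, mul_smul_comm]
      · intro a _ hab
        have h2 : tl a (Finsupp.single (b :: l, e) k) = 0 := by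
          ext w
          rw [tl_apply]
          apply Finsupp.single_eq_of_ne
          simp [consW, hab]
        simp [h2]
      · simp

variable {ψ}

theorem indep (hψ : ψ.IsPrimitive) (l : List (ZMod 7)) (e : ZMod 7) :
    ∀ c : (List (ZMod 7) × ZMod 7) →₀ ZMod 3,
      (∀ w, c w ≠ 0 → (∀ a ∈ w.1, a ≠ 0) ∧ w.2 ≠ 2) → E ψ c = 0 → c (l, e) = 0 := by
  induction l with
  | nil =>
    intro c hc h
    rw [E_decomp] at h
    have h1 := (freeness hψ _ _ h).1
    have h2 := fourier' hψ (fun e => algebraMap (ZMod 3) K (c ([], e))) (fun i _ => by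
      rw [← h1]
      refine Finset.sum_congr rfl fun e _ => ?_
      rw [Algebra.algebraMap_eq_smul_one, ZMod.map_smul, map_one, mul_smul_comm, mul_one]) e 2
    have h3 : c ([], 2) = 0 := by
      by_contra h4
      exact (hc _ h4).2 rfl
    simp only [h3, map_zero] at h2
    exact (algebraMap (ZMod 3) K).injective (by rw [h2, map_zero])
  | cons a l ih =>
    intro c hc h
    rw [E_decomp] at h
    have h1 := (freeness hψ _ _ h).2 a 0
    have h2 : tl 0 c = 0 := by
      ext w
      rw [tl_apply]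
      by_contra h4
      exact (hc _ h4).1 0 (by simp [consW]) rfl
    rw [h2, map_zero] at h1
    refine ih (tl a c) (fun w hw => ?_) h1
    rw [tl_apply] at hw
    have := hc _ hw
    exact ⟨fun b hb => this.1 b (by simp [consW, hb]), this.2⟩

/-- a word as a pair -/
def W.toPair (w : W) : List (ZMod 7) × ZMod 7 := (w.h :: w.m, w.l)

theorem W.toPair_injective : Function.Injective W.toPair := by
  intro a b h
  simp only [W.toPair, Prod.mk.injEq, List.cons.injEq] at h
  exact W.ext h.1.1 h.1.2 h.2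

theorem W.toPair_good (w : W) : (∀ a ∈ w.toPair.1, a ≠ 0) ∧ w.toPair.2 ≠ 2 := by
  constructor
  · intro a ha
    rcases List.mem_cons.1 ha with rfl | ha
    · rcases w.hh with h | h | h | h <;> rw [h] <;> decide
    · exact w.hm a ha
  · show w.l ≠ 2
    rcases w.hl with h | h | h <;> rw [h] <;> decide

end

theorem W_embeds_R : ∃ f : MonoidAlgebra (ZMod 3) W →ₙ+* R, Function.Injective f := by
  obtain ⟨ψ, hψ⟩ := exists_psi
  let F := MonoidAlgebra.liftMagma (ZMod 3) (evW ψ)
  refine ⟨(F : MonoidAlgebra (ZMod 3) W →ₙ+* R), ?_⟩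
  rw [injective_iff_map_eq_zero]
  intro f hf
  have h1 : E ψ (Finsupp.mapDomain W.toPair f.coeff) = 0 := by
    rw [E, Finsupp.linearCombination_mapDomain, Finsupp.linearCombination_apply]
    exact hf
  ext w
  have h2 := indep hψ w.toPair.1 w.toPair.2 _ (fun v hv => by
    obtain ⟨u, rfl⟩ : v ∈ Set.range W.toPair := by
      by_contra hv'
      exact hv (Finsupp.mapDomain_of_notMem_range _ _ hv')
    exact u.toPair_good) h1
  rw [Prod.mk.eta, Finsupp.mapDomain_apply W.toPair_injective] at h2
  simpa using h2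

theorem W_embeds : ∃ (D : Type) (_ : DivisionRing D) (f : MonoidAlgebra (ZMod 3) W →ₙ+* D),
    Function.Injective f := by
  obtain ⟨D, inst, g, hg⟩ := R_embeds
  obtain ⟨f, hf⟩ := W_embeds_R
  exact ⟨D, inst, (g : R →ₙ+* D).comp f, hg.comp hf⟩

end Pool.Agent.Lib.MP_b4fb0e_al
end
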